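import Mathlib
import Pool.Agent.Zk39.GD.Final2

/-!
# Leigh's classes with `Λ_C < 1`: uniform power saving in the almost all theorem, for EVERY finite class

Let `T` be a generalised Collatz map modulo an arbitrary `d ≥ 2`, the `m_i` being arbitrary nonzero integers, and let `C`
be a finite closed communicating class of Leigh's chain with `Λ_C < 1`. There are `c > 0` and `A` such that at most
`A X / y ^ c` of the integers `x` in `S_C` with `|x| ≤ X` have a trajectory that never enters `[-y, y]`, uniformly in `X` and
`y`. In particular almost all `x` in `S_C` (natural density) have a trajectory that attains values below `f(x)` in absolute
value, for every function `f` with limit infinity, however slowly it grows, and for each `ε > 0` some finite set is visited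
by the trajectories of all `x` in `S_C` outside of a set of upper density at most `ε`.

`T`, `Data`, `Class`, `Lam`, `S` are the map, the admissible data, the finite closed communicating classes with their
stationary distribution, the number `Λ_C` and the union `S_C`, as in the starting library file
`Pool.Agent.H319R2.LeighBridge`; a state `(j, k)` is the class of `j` modulo `d k`.

The starting results have such uniform bounds for the maps of coprime type only (all `m_i` coprime to `d`:
`AlmostBounded`, `PowerRate`); for the other classes they have `AlmostAllDescent`, which loses a power of `log X` and so says
nothing about bounded heights, nor about heights smaller than a power of `log X`.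

Proof. In the state `B = B(j, d k)` write `x = j + d k y`. In these coordinates `T` is a graph directed system: in the state
`B` the integer `y` is mapped to `(b_B y - c_B(y mod n_B)) / n_B`, where `n_B` is the number of successors of `B` and `b_B`
is coprime to `d`, and `log Λ_C` is the mean of `log (|b_B| / n_B)`. Conditionally on the numbers of visits to the states,
which determine the multiplier, the offsets of the paths of length `k` are shown to be equidistributed modulo all
products of the `b_B` up to the entropy barrier, with an error smaller than every power of `1 / k`. This is proved
by an entropy argument with a conditional averaging over short suffixes of the path which visit all states. An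
induction over the scales `a` with `log a > y ^ δ` compares the density of the exceptional set in residue classes at one scale
with the densities at lower scales, with total error a power of `1 / y`; at the scales `log a ≤ y ^ δ` the exceptional set is
counted in residue classes by its first passages through the sparse set of the points which do not descend in a short
time, the first passages being rigid (affine with a bounded error) since the orbit has stayed large.
-/

set_option autoImplicit false

namespace Pool.Agent.Results.MP_39d40e_nt.AllFiniteClasses

open Pool.Agent.H319R2.Leigh Pool.Agent.Zk39.GD

/-- **Theorem.** Let `C` be a finite closed communicating class of Leigh's chain of a generalised Collatz map `T` with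
`Λ_C < 1`. There are `c > 0` and `A` such that for all `X, y ≥ 1` at most `A X / y ^ c` of the integers `x` in `S_C` with
`|x| ≤ X` have a trajectory that never enters `[-y, y]`. -/
theorem result (d : ℕ) (m r b : ℤ → ℤ) (e : ℤ → ℕ) (D : Data d m r b e) (C : Finset (ℤ × ℕ)) (ρ : ℤ × ℕ → ℝ)
    (hC : Class d m r e C ρ) (hL : Lam d m C ρ < 1) :
    ∃ c : ℝ, 0 < c ∧ ∃ A : ℝ, ∀ X y : ℝ, 1 ≤ X → 1 ≤ y →
      (Set.ncard {x : ℤ | x ∈ S d C ∧ |(x : ℝ)| ≤ X ∧ ∀ n : ℕ, y < |(((T d m r)^[n] x : ℤ) : ℝ)|} : ℝ) ≤
        A * X / y ^ c :=
  leigh_power D hC hL

end Pool.Agent.Results.MP_39d40e_nt.AllFiniteClasses
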