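import Pool.Agent.Zk39.Tr.Exc
import Pool.Agent.N733.TG.K
import Pool.Agent.N790.CM.C
import Pool.Agent.N671.DA.Win

/-!
# Leigh's chain with `Λ_C < 1`: ALL trajectories which start near multiples of Carmichael's function, values of Euler's
# function, and denominators of good approximations

Let `C` be any finite closed communicating class of Leigh's chain of a generalised Collatz map `T` modulo any `d ≥ 2` with
`Λ_C < 1`. Let `G` have steps bounded below by a positive constant and growth at most `v ^ D`, for example `G(v) = a v ^ D`.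
We show that ALL integers `x` of `S_C` with `||x| - G(v)| ≤ v ^ κ` have a trajectory which enters `[-|x| ^ δ, |x| ^ δ]`

* for `v = f(m)`, `f` multiplicative, for example Euler's function or the sum of the divisors, for almost all `m`,
* for EVERY multiple `v ≤ N ^ B` of Carmichael's function `λ(m)`, for almost all `m ≤ N`,
* for all denominators `v = q` of good approximations of almost all points of `ℝ ^ n` (`‖q α_j - β_j‖ ≤ b q ^ (-τ)`),
  with an exceptional set of dimension less than `n`.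

The definitions `T`, `Data`, `Class`, `Lam`, `S` are in `Pool.Agent.H319R2.LeighBridge`, `LM` in `Pool.Agent.N733.TG.G`,
`Expanding` in `Pool.Agent.N733.TG.K`, `FewTimes`, `Carries` in `Pool.Agent.N790.CM.A`, `Solves` in
`Pool.Agent.N671.DA.Nat`, `Falls` in `Pool.Agent.Zk39.Tr.Exc`.
-/

set_option autoImplicit false

namespace Pool.Agent.Results.MP_39d40e_nt.ArithmeticStarts

open Pool.Agent.H319R2.Leigh Pool.Agent.Zk39.Tr
open Pool.Agent.N733.TG (LM Expanding lm_totient lm_sigma expanding_pow)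
open Pool.Agent.N790.CM (FewTimes Carries fewTimes_pred pred_dvd_carmichael)
open Pool.Agent.N671.DA (Solves)

/-- all elements `x` of `S_C` with `||x| - G v| ≤ v ^ κ` have a trajectory which enters `[-|x| ^ δ, |x| ^ δ]` -/
def AllFall (d : ℕ) (m r : ℤ → ℤ) (C : Finset (ℤ × ℕ)) (G : ℕ → ℝ) (κ δ : ℝ) (v : ℕ) : Prop :=
  ∀ x ∈ S d C, |(|x| : ℝ) - G v| ≤ (v : ℝ) ^ κ → Falls d m r δ x

/-- **Theorem.** Let `C` be a finite closed communicating class of Leigh's chain of a generalised Collatz map `T` with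
`Λ_C < 1`. There is `c > 0` such that for all `δ > 0`, `κ ≥ 0` and all `G` with steps `≥ a > 0` and growth at most `v ^ D`,
with `s = max (1 - c δ) 0`: (1) if `D s + κ < 1` and `f` is multiplicative and positive, of at most polynomial growth, with
`f p ≤ M p` at the large primes, and injective there, then for every `U` and all large `N`, for all `m ≤ N` but
`N / (log N)^U` the statement `AllFall` holds for `v = f m`; (2) if `B ≥ 1`, `B (D s + κ) < 1` and `f` takes each positive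
value at most `T` times at the primes, then for every `U` and all large `N`, for all `m ≤ N` but `N / (log N)^U`, `AllFall`
holds for EVERY `v` with `1 ≤ v ≤ N ^ B` and `f(p) ∣ v` for all primes `p > exp (√(log N))` which divide `m` exactly once;
(3) if `κ ≤ 1`, `τ > 0` and `β ∈ ℝ ^ n`, then for all `α ∈ ℝ ^ n` outside a set of Hausdorff dimension at most
`(n + (D s + κ)) / (1 + τ)`, and all `b`, for all large `q` with `‖q α_j - β_j‖ ≤ b q ^ (-τ)` for all `j`, `AllFall` holds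
for `v = q`; this dimension is less than `n` if `n τ ≥ 1` and `D s + κ < 1`. (4) Examples: Euler's function and the sum of
the divisors for (1); `f(p) = p - 1`, for which every multiple of Carmichael's function `λ(m)` is admissible, for (2); and
`G(v) = a v ^ D` with `a > 0`, `D ≥ 1`. -/
theorem result :
    (∀ (d : ℕ) (m r b : ℤ → ℤ) (e : ℤ → ℕ), Data d m r b e → ∀ (C : Finset (ℤ × ℕ)) (ρ : ℤ × ℕ → ℝ),
      Class d m r e C ρ → Lam d m C ρ < 1 → ∃ c : ℝ, 0 < c ∧ ∀ (G : ℕ → ℝ) (D : ℝ), Expanding G D →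
      ∀ κ δ : ℝ, 0 ≤ κ → 0 < δ →
      (D * max (1 - c * δ) 0 + κ < 1 → ∀ f : ℕ → ℕ, LM f → ∀ U : ℕ, ∃ N₀ : ℕ, ∀ N : ℕ, N₀ ≤ N →
        ({k : ℕ | 1 ≤ k ∧ k ≤ N ∧ ¬ AllFall d m r C G κ δ (f k)}.ncard : ℝ) ≤ N / Real.log N ^ U) ∧
      (∀ B : ℝ, 1 ≤ B → B * (D * max (1 - c * δ) 0 + κ) < 1 → ∀ (f : ℕ → ℕ) (t : ℕ), FewTimes f t →
        ∀ U : ℕ, ∃ N₀ : ℕ, ∀ N : ℕ, N₀ ≤ N →
        ({k : ℕ | 1 ≤ k ∧ k ≤ N ∧ ¬ ∀ w : ℕ, 1 ≤ w → (w : ℝ) ≤ (N : ℝ) ^ B →
          Carries f (Real.exp √(Real.log N)) k w → AllFall d m r C G κ δ w}.ncard : ℝ) ≤ N / Real.log N ^ U) ∧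
      (κ ≤ 1 → ∀ (n : ℕ) (β : Fin n → ℝ) (τ : ℝ), 0 < τ →
        ∃ Z : Set (Fin n → ℝ), dimH Z ≤ ENNReal.ofReal ((n + (D * max (1 - c * δ) 0 + κ)) / (1 + τ)) ∧
          (1 ≤ n * τ → D * max (1 - c * δ) 0 + κ < 1 → dimH Z < n) ∧
          ∀ α, α ∉ Z → ∀ b : ℝ, ∃ Q : ℕ, ∀ q : ℕ, Q ≤ q → Solves α β q (b * (q : ℝ) ^ (-τ)) →
            AllFall d m r C G κ δ q)) ∧
    (LM Nat.totient ∧ LM (fun m => ∑ d ∈ m.divisors, d)) ∧
    (FewTimes (fun p => p - 1) 1 ∧
      ∀ (y : ℝ) (m w : ℕ), ArithmeticFunction.carmichael m ∣ w → Carries (fun p => p - 1) y m w) ∧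
    ∀ a D : ℝ, 0 < a → 1 ≤ D → Expanding (fun v => a * (v : ℝ) ^ D) D := by
  refine ⟨fun d m r b e hD C ρ hC hL => ?_, ⟨lm_totient, lm_sigma⟩,
    ⟨fewTimes_pred, fun y m w h p hp _ hpm _ => (pred_dvd_carmichael hp hpm).trans h⟩,
    fun a D ha hD => expanding_pow ha hD⟩
  obtain ⟨c, hc, -, hexc⟩ := exc hD hC hL
  refine ⟨c, hc, fun G D hG κ δ hκ hδ => ?_⟩
  have hs : 0 ≤ max (1 - c * δ) 0 := le_max_right _ _
  have hcount : ∀ ε : ℝ, 0 < ε → ∃ K : ℝ, ∀ X : ℝ, 1 ≤ X →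
      {x : ℤ | (x ∈ S d C ∧ ¬ Falls d m r δ x) ∧ |(x : ℝ)| ≤ X}.Finite ∧
      ({x : ℤ | (x ∈ S d C ∧ ¬ Falls d m r δ x) ∧ |(x : ℝ)| ≤ X}.ncard : ℝ) ≤ K * X ^ (max (1 - c * δ) 0 + ε) :=
    fun ε hε => hexc δ hδ ε hε
  refine ⟨fun h1 f hf U => ?_, fun B hB h1 f t hf => ?_, fun hκ1 n β τ hτ => ?_⟩
  · exact Pool.Agent.N733.TG.keep_good (fun x : ℤ => x ∈ S d C) (Falls d m r δ) (fun x : ℤ => |(x : ℝ)|) hf hG hs hκ
      h1 hcount U
  · exact Pool.Agent.N790.CM.keep_good (fun x : ℤ => x ∈ S d C) (Falls d m r δ) (fun x : ℤ => |(x : ℝ)|) hG hs hκ hB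
      h1 hcount f t hf
  · obtain ⟨E, hE, hE2⟩ := Pool.Agent.N671.DA.approx_windows {x : ℤ | x ∈ S d C ∧ ¬ Falls d m r δ x}
      (fun x : ℤ => |(x : ℝ)|) (G := G) (d := D) ⟨hG.one_le, hG.step, hG.growth⟩ hs hκ hκ1 hcount β hτ
    have hD1 := hG.one_le
    refine ⟨E, hE, fun h1 h2 => ?_, fun α hα b => ?_⟩
    · have hm : (0 : ℝ) < n := by
        by_contra hcon
        have h3 : (n : ℝ) ≤ 0 := not_lt.1 hcon
        nlinarith
      have h4 : (n + (D * max (1 - c * δ) 0 + κ)) / (1 + τ) < n := by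
        rw [div_lt_iff₀ (by linarith)]
        nlinarith
      refine lt_of_le_of_lt hE ?_
      rw [← ENNReal.ofReal_natCast]
      exact (ENNReal.ofReal_lt_ofReal_iff hm).2 h4
    · obtain ⟨Q, hQ⟩ := hE2 α hα b
      refine ⟨Q, fun q hq h1 x hx h2 => ?_⟩
      by_contra hcon
      exact hQ q hq h1 x ⟨hx, hcon⟩ h2

end Pool.Agent.Results.MP_39d40e_nt.ArithmeticStarts
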