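import Mathlib
import Pool.Agent.Zk39.LD.Final2

/-!
# Leigh's classes with `Λ_C < 1`: the densities of all almost invariant sets, for EVERY finite class

Let `T` be a generalised Collatz map modulo an arbitrary `d ≥ 2`, the `m_i` being arbitrary nonzero integers, and let `C`
be a finite closed communicating class of Leigh's chain with `Λ_C < 1`; it need not be aperiodic and its residue classes
`B(j, d k)` may have different moduli and overlap. A set `A` of integers is almost invariant if `x ∈ A ↔ T x ∈ A` for all `x`
in `S_C` outside of a finite set: for example the integers with cycling, or with divergent, trajectory, the integers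
whose trajectory reaches a given cycle, meets a given trajectory, enters a given finite set at a given point, or has
a given minimum.

For every such `A` we show that `A ∩ S_C` and the sets `A ∩ B(j, d k)` have logarithmic densities on both sides, with an
error `O(1)` in the residue classes, uniformly in `A`; that these are natural densities if the multipliers
`∏ |m_i| / d` of the closed paths in `C` are not all powers of one number; that `A` is equidistributed in the residue
classes of `C`; that the density is the sum of the densities of `A` in the grand orbits; and that it is at most `A₀ / y ^ c`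
if the trajectories from `A` avoid `[-y, y]`. So almost all of `S_C` is exhausted by countably many grand orbits which have
densities, the minimum of a trajectory has a limit law, and almost every `x` in `S_C` cycles, in the sense of
logarithmic density, if and only if the densities of the basins of the cycles have the sum `κ`, the density of `S_C`.

The starting results have natural densities (`NaturalDensities`, `EntranceAndMinimumLaws`) only for the maps of coprime
type (all `m_i` coprime to `d`, so that `C` is the set of all residue classes modulo `d` and every transition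
probability is `1 / d`) with `|m_i|` not all equal, and nothing for the other classes.

Proof. In the state `B = B(j, d k)` write `x = j + d k y`. In these coordinates the class is a graph directed system. The
equidistribution of the offsets of its paths, conditionally on the numbers of visits to the states (from
`AllFiniteClasses`), shows that almost invariant sets are equidistributed modulo all products of the `b_i`; so the
density functions on the logarithmic scale are harmonic for the Markov chain with the steps `log (|b_B| / n_B)`, up to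
an error `O(t ^ (-3))`. Since the mean step is negative, their averages converge with an error `O(1)` (a discrete
conservation law), also for the double cover by the signs, and in the nonlattice case they converge themselves
(a limit of translates attains its supremum, and the periods of bounded harmonic functions are dense). The union of
overlapping classes is treated by cylinders: two labels of an integer merge as soon as both have visited all states, as
the `p`-adic valuations of the moduli evolve by monotone maps.
-/

set_option autoImplicit false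

namespace Pool.Agent.Results.MP_39d40e_nt.InvariantDensities

open Pool.Agent.H319R2.Leigh Finset Filter Topology

/-- the residue class `B(j, d k)` of the state `(j, k)` -/
def Cls (d : ℕ) (B : ℤ × ℕ) : Set ℤ := {x | x ≡ B.1 [ZMOD (d * B.2 : ℕ)]}

/-- `A` is invariant in `S_C` outside of `[-R, R]` -/
def AlmostInvariant (d : ℕ) (m r : ℤ → ℤ) (C : Finset (ℤ × ℕ)) (R : ℕ) (A : Set ℤ) : Prop :=
  ∀ x ∈ S d C, (R : ℤ) < |x| → (x ∈ A ↔ T d m r x ∈ A)

open Classical in
/-- the positive integers `n ≤ N` with `σ n ∈ E` -/
noncomputable def upTo (E : Set ℤ) (σ : ℤ) (N : ℕ) : Finset ℕ := (Icc 1 N).filter fun n : ℕ => σ * (n : ℤ) ∈ E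

/-- the proportion of the `n ≤ N` with `σ n ∈ E` -/
noncomputable def natAvg (E : Set ℤ) (σ : ℤ) (N : ℕ) : ℝ := ((upTo E σ N).card : ℝ) / N

/-- the logarithmic proportion of the `n ≤ N` with `σ n ∈ E` -/
noncomputable def logAvg (E : Set ℤ) (σ : ℤ) (N : ℕ) : ℝ := (∑ n ∈ upTo E σ N, 1 / (n : ℝ)) / Real.log N

/-- the logarithmic density of `E` on the side `σ` (positive side for `σ = 1`, negative side for `σ = -1`) -/
noncomputable def ld (E : Set ℤ) (σ : ℤ) : ℝ := limUnder atTop (logAvg E σ)

/-- the multipliers `∏ |m_i| / d` of the closed paths in `C` are not all powers of one number `θ` -/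
def Nonlattice (d : ℕ) (m r : ℤ → ℤ) (e : ℤ → ℕ) (C : Finset (ℤ × ℕ)) : Prop :=
  ∀ θ : ℝ, 0 < θ → ∃ (n : ℕ) (p : ℕ → ℤ × ℕ), (∀ t ≤ n, p t ∈ C) ∧ (∀ t < n, 0 < P d m r e (p t) (p (t + 1))) ∧
    p n = p 0 ∧ ∀ k : ℤ, ∏ t ∈ range n, |(m ((p t).1 % d) : ℝ)| / d ≠ θ ^ k

/-- the product of the `m_i` along some closed path in `C` is negative -/
def Mixed (d : ℕ) (m r : ℤ → ℤ) (e : ℤ → ℕ) (C : Finset (ℤ × ℕ)) : Prop :=
  ∃ (n : ℕ) (p : ℕ → ℤ × ℕ), (∀ t ≤ n, p t ∈ C) ∧ (∀ t < n, 0 < P d m r e (p t) (p (t + 1))) ∧
    p n = p 0 ∧ ∏ t ∈ range n, m ((p t).1 % d) < 0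

/-- all `m_i` occurring in `C` are positive -/
def AllPos (d : ℕ) (m : ℤ → ℤ) (C : Finset (ℤ × ℕ)) : Prop := ∀ B ∈ C, 0 < m (B.1 % d)

/-- the integers of `S_C` whose trajectory never enters `[-y, y]` -/
def Avoids (d : ℕ) (m r : ℤ → ℤ) (C : Finset (ℤ × ℕ)) (y : ℝ) : Set ℤ :=
  {x | x ∈ S d C ∧ ∀ n : ℕ, y < |(((T d m r)^[n] x : ℤ) : ℝ)|}

/-- the integers `x` with `min |T^n x| = v` -/
def MinIs (d : ℕ) (m r : ℤ → ℤ) (v : ℕ) : Set ℤ :=
  {x | (∃ n : ℕ, |(T d m r)^[n] x| = v) ∧ ∀ n : ℕ, (v : ℤ) ≤ |(T d m r)^[n] x|}

/-- the grand orbit of `x` in `S_C`: the integers of `S_C` whose trajectories meet the trajectory of `x` -/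
def grandOrbit (d : ℕ) (m r : ℤ → ℤ) (C : Finset (ℤ × ℕ)) (x : ℤ) : Set ℤ :=
  {y | y ∈ S d C ∧ ∃ i j : ℕ, (T d m r)^[i] y = (T d m r)^[j] x}

/-- **Theorem.** Let `C` be a finite closed communicating class of Leigh's chain of a generalised Collatz map `T` with
`Λ_C < 1`. The sets `MinIs v` are invariant in `S_C` outside of `[-v, v]`, the grand orbits are invariant. There are
`κ > 0`, `c > 0`, `A₀` and `K(R)` such that for both sides `σ = ±1` the set `S_C` has the natural density `κ`, the
logarithmic densities of the sets `MinIs v` in `S_C` have the sum `κ` (so the minimum of a trajectory has a limit law),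
and for every `R` and every set `A` which is invariant in `S_C` outside of `[-R, R]`:

* (sides and classes) there are `a, s(±1) ∈ [0, 1]` such that the two densities of `A ∩ S_C` have the sum `2 a κ` and those of
  `A ∩ B(j, d k)` have the sum `2 a / (d k)` for all states `(j, k)` in `C`; if some closed path in `C` has a negative
  product of multipliers (then `s(±1) = a`) or if all `m_i` in `C` are positive, the densities on the side `σ` are
  `s(σ) κ` and `s(σ) / (d k)`;
* (existence) `A ∩ S_C` has a logarithmic density on each side, and in the residue classes of `C` the sum of `1 / n` over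
  the `n ≤ N` in `A` is `ld · log N` with an error at most `K(R)`, for all `A` and `N`; all these logarithmic densities are
  natural densities if the multipliers of the closed paths in `C` are not all powers of one number;
* (countable additivity) the density of `A ∩ S_C` is the sum of the densities of `A` in the grand orbits;
* (tails) if the trajectories from `A ∩ S_C` avoid `[-y, y]` then its density is at most `A₀ / y ^ c`. -/
theorem result (d : ℕ) (m r b : ℤ → ℤ) (e : ℤ → ℕ) (D : Data d m r b e) (C : Finset (ℤ × ℕ)) (ρ : ℤ × ℕ → ℝ)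
    (hC : Class d m r e C ρ) (hL : Lam d m C ρ < 1) :
    (∀ v : ℕ, AlmostInvariant d m r C v (MinIs d m r v)) ∧ (∀ x : ℤ, AlmostInvariant d m r C 0 (grandOrbit d m r C x)) ∧
    ∃ κ : ℝ, 0 < κ ∧ ∃ c : ℝ, 0 < c ∧ ∃ A₀ : ℝ, ∃ K : ℕ → ℝ,
      (∀ σ : ℤ, (σ = 1 ∨ σ = -1) → Tendsto (natAvg (S d C) σ) atTop (𝓝 κ) ∧
        HasSum (fun v : ℕ => ld (MinIs d m r v ∩ S d C) σ) κ) ∧
      ∀ (R : ℕ) (A : Set ℤ), AlmostInvariant d m r C R A →
        (∃ (a : ℝ) (s : ℤ → ℝ), 0 ≤ a ∧ a ≤ 1 ∧ ld (A ∩ S d C) 1 + ld (A ∩ S d C) (-1) = 2 * a * κ ∧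
          (∀ B ∈ C, ld (A ∩ Cls d B) 1 + ld (A ∩ Cls d B) (-1) = 2 * a / (d * B.2)) ∧
          ∀ σ : ℤ, (σ = 1 ∨ σ = -1) → 0 ≤ s σ ∧ s σ ≤ 1 ∧ (Mixed d m r e C → s σ = a) ∧
            ((Mixed d m r e C ∨ AllPos d m C) → ld (A ∩ S d C) σ = s σ * κ ∧
              ∀ B ∈ C, ld (A ∩ Cls d B) σ = s σ / (d * B.2))) ∧
        ∀ σ : ℤ, (σ = 1 ∨ σ = -1) →
          Tendsto (logAvg (A ∩ S d C) σ) atTop (𝓝 (ld (A ∩ S d C) σ)) ∧
          (∀ B ∈ C, ∀ N : ℕ, 1 ≤ N →
            |∑ n ∈ upTo (A ∩ Cls d B) σ N, 1 / (n : ℝ) - ld (A ∩ Cls d B) σ * Real.log N| ≤ K R) ∧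
          (Nonlattice d m r e C → Tendsto (natAvg (A ∩ S d C) σ) atTop (𝓝 (ld (A ∩ S d C) σ)) ∧
            ∀ B ∈ C, Tendsto (natAvg (A ∩ Cls d B) σ) atTop (𝓝 (ld (A ∩ Cls d B) σ))) ∧
          HasSum (fun O : {O : Set ℤ // ∃ x ∈ S d C, O = grandOrbit d m r C x} => ld (A ∩ O.1) σ) (ld (A ∩ S d C) σ) ∧
          ∀ y : ℝ, 1 ≤ y → A ∩ S d C ⊆ Avoids d m r C y → ld (A ∩ S d C) σ ≤ A₀ / y ^ c :=
  ⟨fun v => Pool.Agent.Zk39.GD.Mn_inv v, fun x z hz _ => Pool.Agent.Zk39.GD.orb_inv D hC x z hz,
    Pool.Agent.Zk39.GD.dens_main D hC hL⟩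

end Pool.Agent.Results.MP_39d40e_nt.InvariantDensities
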