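import Pool.Agent.Zk39.Tr.Exc
import Pool.Agent.Zk39.Tr.Ord

/-!
# Leigh's chain with `Λ_C < 1`: ALL integers near the terms of arbitrarily fast growing families, for almost every parameter

Let `C` be a finite closed communicating class of Leigh's chain of a generalised Collatz map `T` with `Λ_C < 1`.

For almost every `α > 1` the trajectories of ALL integers `x` in `S_C` within `n ^ A` of `± α ^ (v_n)` come down to `n ^ B`,
`B = B(A)`, for ANY sequence `v_n` which grows faster than `log n`, for instance `v_n = 2 ^ n` or `v_n = n!`: the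
height which is reached depends only on the index, however large the starting values `α ^ (v_n)` are. The same holds for other
functions `f_n(α)` such that `f_n(t) / t ^ (w_n)` is nondecreasing, if `log (f_n(t) / f_n(s)) / w_n` is bounded (or not too
large). (In the starting file `DescentNearPowers` the height had to be larger than a power of `v_n`.)

For all `α` outside a set of Hausdorff dimension less than one the trajectories of ALL integers `x` in `S_C` in the much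
longer windows `||x| - f_n(α)| ≤ f_n(α) ^ θ` come down to `|x| ^ δ`, if `θ + τ < c δ`.

The definitions `T`, `Data`, `Class`, `Lam`, `S` are in `Pool.Agent.H319R2.LeighBridge`, `Starshaped` and `Conv` in
`Pool.Agent.R482.ST.Star`, `Falls` is in `Pool.Agent.Zk39.Tr.Exc`.
-/

set_option autoImplicit false

namespace Pool.Agent.Results.MP_39d40e_nt.NearAnyPowers

open MeasureTheory Filter Topology
open Pool.Agent.H319R2.Leigh Pool.Agent.Zk39.Tr
open Pool.Agent.R482.ST (Starshaped Conv windows ex_mul ex_pow ex_orbit)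

/-- **Theorem.** Let `C` be a finite closed communicating class of Leigh's chain of a generalised Collatz map `T`, with
`Λ_C < 1`. There is `c > 0` such that: (1) let `y_n ≥ 1`, `L_n ≥ 0`, `w_n ≥ 1`, let `f_n` be positive functions on `(a, ∞)`,
`a ≥ 0`, with `f_n(x) / x ^ (w_n)` nondecreasing, bounded below by a positive constant at each point, with `4 L_n ≤ f_n(s)` for
large `n`, for each `s > a`, such that the sums of `L_n y_n ^ (-c) (1 + log (f_n(t) / f_n(s))) / w_n` converge for all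
`t ≥ s > a`; then for almost all `α > a` and all large `n` the trajectory of EVERY `x ∈ S_C` with `||x| - f_n(α)| ≤ L_n` enters
`[-y_n, y_n]`; (2) the same for `f_n(α) = α ^ (v_n)`, `v_n ≥ 1`, `α > 1`, if the sum of `L_n y_n ^ (-c)` converges; (3) for
every `A` there is `B` such that for every sequence `v_n ≥ 1` with `v_n / log n → ∞`, almost all `α > 1` and all large `n` the
trajectory of EVERY `x ∈ S_C` with `||x| - α ^ (v_n)| ≤ n ^ A` enters `[-n ^ B, n ^ B]`; (4) let `f_n` be starshaped on `(a, ∞)`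
with exponent of convergence at most `τ`, `δ > 0` and `θ < 1`; for all `α > a` outside a set of Hausdorff dimension at most
`(max (1 - c δ) 0 + τ) / (1 - θ)`, all `K` and all large `n` the trajectory of EVERY `x ∈ S_C` with
`||x| - f_n(α)| ≤ K f_n(α) ^ θ` enters `[-|x| ^ δ, |x| ^ δ]`; (5) this bound for the dimension is less than one if
`τ + θ < c δ ≤ 1`. Examples for (4): multiples `v_n α`, powers `α ^ (v_n)` and orbits `g (g (⋯ g (α)))`. -/
theorem result (d : ℕ) (m r b : ℤ → ℤ) (e : ℤ → ℕ) (D : Data d m r b e) (C : Finset (ℤ × ℕ))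
    (ρ : ℤ × ℕ → ℝ) (hC : Class d m r e C ρ) (hΛ : Lam d m C ρ < 1) :
    (∃ c : ℝ, 0 < c ∧
      (∀ y L : ℕ → ℝ, (∀ n, 1 ≤ y n) → (∀ n, 0 ≤ L n) →
        (∀ (a : ℝ) (w : ℕ → ℝ) (f : ℕ → ℝ → ℝ), 0 ≤ a → (∀ n, 1 ≤ w n) →
          (∀ n, ∀ s t : ℝ, a < s → s ≤ t → 0 < f n s ∧ f n s / s ^ (w n) ≤ f n t / t ^ (w n)) →
          (∀ s : ℝ, a < s → ∃ l : ℝ, 0 < l ∧ ∀ n, l ≤ f n s) →
          (∀ s : ℝ, a < s → ∀ᶠ n in atTop, 4 * L n ≤ f n s) →
          (∀ s t : ℝ, a < s → s ≤ t → Summable fun n =>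
            L n * (y n) ^ (-c) * (1 + Real.log (f n t / f n s)) / w n) →
          ∃ N : Set ℝ, volume N = 0 ∧ ∀ α : ℝ, a < α → α ∉ N → ∃ n₀ : ℕ, ∀ n : ℕ, n₀ ≤ n →
            ∀ x ∈ S d C, |(|x| : ℝ) - f n α| ≤ L n → ∃ k : ℕ, |(((T d m r)^[k] x : ℤ) : ℝ)| ≤ y n) ∧
        (∀ v : ℕ → ℝ, (∀ n, 1 ≤ v n) → (∀ s : ℝ, 1 < s → ∀ᶠ n in atTop, 4 * L n ≤ s ^ (v n)) →
          (Summable fun n => L n * (y n) ^ (-c)) →
          ∃ N : Set ℝ, volume N = 0 ∧ ∀ α : ℝ, 1 < α → α ∉ N → ∃ n₀ : ℕ, ∀ n : ℕ, n₀ ≤ n →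
            ∀ x ∈ S d C, |(|x| : ℝ) - α ^ (v n)| ≤ L n → ∃ k : ℕ, |(((T d m r)^[k] x : ℤ) : ℝ)| ≤ y n)) ∧
      (∀ (a : ℝ) (f : ℕ → ℝ → ℝ) (τ θ δ : ℝ), Starshaped a f → 0 ≤ τ → Conv a f τ → θ < 1 → 0 < δ →
        ∃ E : Set ℝ, dimH E ≤ ENNReal.ofReal ((max (1 - c * δ) 0 + τ) / (1 - θ)) ∧ ∀ α : ℝ, a < α → α ∉ E →
          ∀ K : ℝ, ∃ n₀ : ℕ, ∀ n : ℕ, n₀ ≤ n → ∀ x ∈ S d C, |(|x| : ℝ) - f n α| ≤ K * (f n α) ^ θ →
            Falls d m r δ x) ∧
      (∀ τ θ δ : ℝ, 0 ≤ τ → 0 ≤ θ → τ + θ < c * δ → c * δ ≤ 1 → (max (1 - c * δ) 0 + τ) / (1 - θ) < 1)) ∧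
    (∀ A : ℕ, ∃ B : ℕ, ∀ v : ℕ → ℝ, (∀ n, 1 ≤ v n) → Tendsto (fun n : ℕ => v n / Real.log n) atTop atTop →
      ∃ N : Set ℝ, volume N = 0 ∧ ∀ α : ℝ, 1 < α → α ∉ N → ∃ n₀ : ℕ, ∀ n : ℕ, n₀ ≤ n →
        ∀ x ∈ S d C, |(|x| : ℝ) - α ^ (v n)| ≤ (n : ℝ) ^ A → ∃ k : ℕ, |(((T d m r)^[k] x : ℤ) : ℝ)| ≤ (n : ℝ) ^ B) ∧
    ((∀ (v : ℕ → ℝ) (τ : ℝ), (∀ n, 0 < v n) → (∀ t : ℝ, τ < t → Summable (fun n : ℕ => (v n) ^ (-t))) →
        Starshaped 0 (fun n x => v n * x) ∧ Conv 0 (fun n x => v n * x) τ) ∧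
      (∀ v : ℕ → ℝ, (∀ n, 1 ≤ v n) → (∀ t : ℝ, 0 < t → Summable fun n : ℕ => Real.exp (-(t * v n))) →
        Starshaped 1 (fun n x => x ^ (v n)) ∧ Conv 1 (fun n x => x ^ (v n)) 0) ∧
      (∀ (a : ℝ) (g : ℝ → ℝ), 0 ≤ a → (∀ x y : ℝ, a < x → x ≤ y → g x / x ≤ g y / y) → (∀ x : ℝ, a < x → x < g x) →
        Starshaped a (fun n x => g^[n] x) ∧ Conv a (fun n x => g^[n] x) 0)) := by
  obtain ⟨c, hc, ⟨A1, hA1, hcount⟩, hexc⟩ := exc D hC hΛ
  have hS : ∀ Y : ℝ, 1 ≤ Y → ∀ X : ℝ, 1 ≤ X →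
      {x : ℤ | x ∈ {x : ℤ | x ∈ S d C ∧ ∀ k : ℕ, Y < |(((T d m r)^[k] x : ℤ) : ℝ)|} ∧ |(x : ℝ)| ≤ X}.Finite ∧
      ({x : ℤ | x ∈ {x : ℤ | x ∈ S d C ∧ ∀ k : ℕ, Y < |(((T d m r)^[k] x : ℤ) : ℝ)|} ∧ |(x : ℝ)| ≤ X}.ncard : ℝ) ≤
        (A1 * Y ^ (-c)) * X := by
    intro Y hY X hX
    refine ⟨fin_int (fun x => x ∈ {x : ℤ | x ∈ S d C ∧ ∀ k : ℕ, Y < |(((T d m r)^[k] x : ℤ) : ℝ)|}) X, ?_⟩
    have h1 := hcount X Y hX hY
    have e1 : {x : ℤ | x ∈ {x : ℤ | x ∈ S d C ∧ ∀ k : ℕ, Y < |(((T d m r)^[k] x : ℤ) : ℝ)|} ∧ |(x : ℝ)| ≤ X} =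
        {x : ℤ | x ∈ S d C ∧ |(x : ℝ)| ≤ X ∧ ∀ k : ℕ, Y < |(((T d m r)^[k] x : ℤ) : ℝ)|} := by
      ext x
      simp only [Set.mem_ofPred_eq]
      tauto
    rw [e1]
    refine h1.trans (le_of_eq ?_)
    rw [Real.rpow_neg (by linarith)]
    ring
  have hpow : ∀ y L : ℕ → ℝ, (∀ n, 1 ≤ y n) → (∀ n, 0 ≤ L n) → ∀ v : ℕ → ℝ, (∀ n, 1 ≤ v n) →
      (∀ s : ℝ, 1 < s → ∀ᶠ n in atTop, 4 * L n ≤ s ^ (v n)) → (Summable fun n => L n * (y n) ^ (-c)) →
      ∃ N : Set ℝ, volume N = 0 ∧ ∀ α : ℝ, 1 < α → α ∉ N → ∃ n₀ : ℕ, ∀ n : ℕ, n₀ ≤ n →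
        ∀ x ∈ S d C, |(|x| : ℝ) - α ^ (v n)| ≤ L n → ∃ k : ℕ, |(((T d m r)^[k] x : ℤ) : ℝ)| ≤ y n := by
    intro y L hy hL v hv hLv hsum
    obtain ⟨N, hN, hw⟩ := pow_ae
      (fun n => {x : ℤ | x ∈ S d C ∧ ∀ k : ℕ, y n < |(((T d m r)^[k] x : ℤ) : ℝ)|}) (fun x : ℤ => |(x : ℝ)|) hv
      (C := fun n => A1 * (y n) ^ (-c))
      (fun n => by
        have := hy n
        positivity) hL hLv (by
        refine (hsum.mul_left A1).congr fun n => ?_
        ring) (fun n X hX => hS (y n) (hy n) X hX)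
    refine ⟨N, hN, fun α hα hαN => ?_⟩
    obtain ⟨n₀, hn⟩ := hw α hα hαN
    refine ⟨n₀, fun n hn1 x hx hxw => ?_⟩
    by_contra hcon
    push Not at hcon
    exact absurd (hn n hn1 x ⟨hx, hcon⟩) (not_lt.2 hxw)
  refine ⟨⟨c, hc, fun y L hy hL => ⟨fun a w f ha hw hf hinf hLf hsum => ?_, hpow y L hy hL⟩,
    fun a f τ θ δ hf hτ hv hθ hδ => ?_, fun τ θ δ hτ hθ h1 h2 => ?_⟩, fun A => ?_,
    fun v τ hv h => ex_mul v τ hv h, fun v hv h => ex_pow v hv h, fun a g ha hg hg1 => ex_orbit a g ha hg hg1⟩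
  · obtain ⟨N, hN, hw⟩ := ord_ae
      (fun n => {x : ℤ | x ∈ S d C ∧ ∀ k : ℕ, y n < |(((T d m r)^[k] x : ℤ) : ℝ)|}) (fun x : ℤ => |(x : ℝ)|) ha hw hf
      hinf (C := fun n => A1 * (y n) ^ (-c))
      (fun n => by
        have := hy n
        positivity) hL hLf (fun s t hs hst => by
        refine ((hsum s t hs hst).mul_left A1).congr fun n => ?_
        ring) (fun n X hX => hS (y n) (hy n) X hX)
    refine ⟨N, hN, fun α hα hαN => ?_⟩
    obtain ⟨n₀, hn⟩ := hw α hα hαN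
    refine ⟨n₀, fun n hn1 x hx hxw => ?_⟩
    by_contra hcon
    push Not at hcon
    exact absurd (hn n hn1 x ⟨hx, hcon⟩) (not_lt.2 hxw)
  · obtain ⟨E, hE, hE2⟩ := windows {x : ℤ | x ∈ S d C ∧ ¬ Falls d m r δ x} (fun x : ℤ => |(x : ℝ)|) hf hτ hv
      (le_max_right (1 - c * δ) 0) hθ (fun ε hε => by
        obtain ⟨K, hK⟩ := hexc δ hδ ε hε
        exact ⟨K, hK⟩)
    refine ⟨E, hE, fun α hα hαE K => ?_⟩
    obtain ⟨n₀, hn⟩ := hE2 α hα hαE K
    refine ⟨n₀, fun n hn1 x hx hxw => ?_⟩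
    by_contra hcon
    exact absurd (hn n hn1 x ⟨hx, hcon⟩) (not_lt.2 hxw)
  · rw [max_eq_left (by linarith), div_lt_one (by linarith)]
    linarith
  · -- y = max 1 n ^ B, L = max 1 n ^ A
    obtain ⟨B, hB⟩ := exists_nat_ge ((A + 2 : ℝ) / c)
    have hBκ : (A + 2 : ℝ) ≤ B * c := by
      rw [div_le_iff₀ hc] at hB
      exact hB
    have hv1 : ∀ n : ℕ, (1 : ℝ) ≤ max 1 (n : ℝ) := fun n => le_max_left _ _
    refine ⟨B, fun v hv hvt => ?_⟩
    obtain ⟨N, hN, hw⟩ := hpow (fun n => (max 1 (n : ℝ)) ^ B) (fun n => (max 1 (n : ℝ)) ^ A)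
      (fun n => one_le_pow₀ (hv1 n)) (fun n => by have := hv1 n; positivity) v hv (by
        intro s hs
        have hs0 : 0 < Real.log s := Real.log_pos hs
        filter_upwards [hvt.eventually (eventually_ge_atTop ((A + 1) / Real.log s)), eventually_ge_atTop 4] with n h1 h2
        have hn4 : (4 : ℝ) ≤ n := by exact_mod_cast h2
        have hln : 0 < Real.log n := Real.log_pos (by linarith)
        rw [le_div_iff₀ hln, div_mul_eq_mul_div, div_le_iff₀ hs0] at h1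
        rw [max_eq_right (by linarith), Real.rpow_def_of_pos (by linarith)]
        calc 4 * (n : ℝ) ^ A ≤ n * (n : ℝ) ^ A := mul_le_mul_of_nonneg_right hn4 (by positivity)
          _ = Real.exp ((A + 1) * Real.log n) := by
              rw [mul_comm ((A : ℝ) + 1), ← Real.rpow_def_of_pos (by linarith)]
              rw [show ((A : ℝ) + 1) = ((A + 1 : ℕ) : ℝ) by push_cast; rfl, Real.rpow_natCast, pow_succ']
          _ ≤ Real.exp (Real.log s * v n) := Real.exp_le_exp.2 (by linarith)) (by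
        have hs2 : Summable fun n : ℕ => 1 / (max 1 (n : ℝ)) ^ 2 := by
          have h0 : Summable fun n : ℕ => 1 / (n : ℝ) ^ 2 := Real.summable_one_div_nat_pow.2 (by norm_num)
          rw [← summable_nat_add_iff 1] at h0 ⊢
          refine h0.congr fun n => ?_
          rw [max_eq_right]
          push_cast
          have : (0 : ℝ) ≤ n := Nat.cast_nonneg n
          linarith
        refine Summable.of_nonneg_of_le (fun n => ?_) (fun n => ?_) hs2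
        · have := hv1 n
          positivity
        · have h1 := hv1 n
          have h0 : 0 < max 1 (n : ℝ) := by linarith
          show (max 1 (n : ℝ)) ^ A * ((max 1 (n : ℝ)) ^ B) ^ (-c) ≤ 1 / (max 1 (n : ℝ)) ^ 2
          rw [one_div, ← Real.rpow_natCast, ← Real.rpow_natCast, ← Real.rpow_natCast,
            ← Real.rpow_mul h0.le, ← Real.rpow_neg h0.le, ← Real.rpow_add h0]
          apply Real.rpow_le_rpow_of_exponent_le h1
          push_cast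
          linarith)
    refine ⟨N, hN, fun α hα hαN => ?_⟩
    obtain ⟨n₀, hn⟩ := hw α hα hαN
    refine ⟨max n₀ 1, fun n hn1 x hx hxw => ?_⟩
    have h1 : (1 : ℝ) ≤ n := by exact_mod_cast (le_trans (le_max_right _ _) hn1)
    have h2 := hn n (le_trans (le_max_left _ _) hn1) x hx
    rw [max_eq_right h1] at h2
    exact h2 hxw

end Pool.Agent.Results.MP_39d40e_nt.NearAnyPowers
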